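import Mathlib

set_option autoImplicit false

/-!
Definitions for the problem `MP_20c673_nt` (a q-congruence with a sign and a power of q).
-/

namespace Pool.Agent.QCong

open Polynomial Finset

/-- The field of rational functions in `q` (the fraction field of `ℤ[q]`). -/
abbrev K : Type := FractionRing ℤ[X]

/-- The indeterminate `q`, as an element of the field `K`. -/
noncomputable def q : K := algebraMap ℤ[X] K X

/-- `[n] = 1 + q + ⋯ + q^(n-1)`, as an element of `ℤ[q]`. -/
noncomputable def brk (n : ℕ) : ℤ[X] := ∑ i ∈ range n, X ^ i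

/-- `⟨a⟩_p`: the least non-negative residue modulo `p` of the rational number `a`
(whose denominator is prime to `p`). -/
def residue (p : ℕ) (a : ℚ) : ℕ := ((a.num : ZMod p) * (a.den : ZMod p)⁻¹).val

/-- Admissible triples `(p, m, r)`. -/
structure Admissible (p m r : ℕ) : Prop where
  prime : p.Prime
  odd : Odd p
  one_le_m : 1 ≤ m
  one_le_r : 1 ≤ r
  m_not_dvd_r : ¬ m ∣ r
  p_not_dvd_m : ¬ p ∣ m

/-- The coefficient `c_k`. -/
noncomputable def coef (m r k : ℕ) : K :=
  ∏ j ∈ range k, (1 - q ^ ((r : ℤ) + j * m)) * (1 - q ^ ((m : ℤ) - r + j * m)) /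
    (1 - q ^ ((j + 1) * m)) ^ 2

/-- The polynomial `S_{p,m,r}(x)`. -/
noncomputable def S (p m r : ℕ) : K[X] := ∑ k ∈ range p, C (coef m r k) * X ^ k

/-- The polynomial `T_{p,m,r}(x)`. -/
noncomputable def T (p m r : ℕ) : K[X] :=
  ∑ k ∈ range p, C (coef m r k * q ^ (m * k)) * ∏ j ∈ range k, (1 - X * C (q ^ (j * m)))

/-- Congruence modulo `[p]^2` of polynomials in `x` over the field of rational functions in `q`:
every coefficient of `A - B`, written as a reduced fraction, has numerator divisible by `[p]^2`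
in `ℤ[q]`. -/
def CongrSq (p : ℕ) (A B : K[X]) : Prop :=
  ∀ n : ℕ, brk p ^ 2 ∣ IsFractionRing.num ℤ[X] ((A - B).coeff n)

/-- The integer `f` makes the congruence
`S_{p,m,r}(x) ≡ (-1)^{⟨-r/m⟩_p} q^f T_{p,m,r}(x) (mod [p]^2)` hold. -/
def Works (p m r : ℕ) (f : ℤ) : Prop :=
  CongrSq p (S p m r) (C ((-1) ^ residue p (-(r : ℚ) / m) * q ^ f) * T p m r)

/-- The explicit exponent: with `a = ⟨-r/m⟩_p` it is
`(r + a m) (a - (p - 1)/2) - m a (a + 1)/2`. -/
def expo (p m r : ℕ) : ℤ :=
  ((r : ℤ) + residue p (-(r : ℚ) / m) * m) * (residue p (-(r : ℚ) / m) - ((p : ℤ) - 1) / 2)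
    - m * ((residue p (-(r : ℚ) / m) : ℤ) * (residue p (-(r : ℚ) / m) + 1) / 2)

end Pool.Agent.QCong
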