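import Pool.Agent.Lib_MP_20c673_nt.Defs
import Pool.Agent.Helper34.QLegendre

set_option autoImplicit false

namespace Pool.Agent.QCong

open Polynomial Finset Pool.Agent.Helper34

lemma cc_mul {L : Type*} [Field L] (Q z : L) (hQ : Q ≠ 0) (hz : z ≠ 0)
    (hQ1 : ∀ j : ℕ, Q ^ (j + 1) ≠ 1) (a k : ℕ) :
    cc Q (z * (Q ^ a)⁻¹) (z⁻¹ * Q ^ (a + 1)) k * (∏ j ∈ range k, (1 - Q ^ (j + 1)) ^ 2)
      * (Q ^ a * z) ^ k = ∏ j ∈ range k, (Q ^ a - Q ^ j * z) * (z - Q ^ (j + 1 + a)) := by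
  have hQa : Q ^ a ≠ 0 := pow_ne_zero _ hQ
  induction k with
  | zero => simp [cc]
  | succ k ih =>
    have h1 : (1 - Q ^ (k + 1)) ^ 2 ≠ 0 := by
      apply pow_ne_zero
      rw [sub_ne_zero]
      exact (hQ1 k).symm
    have h3 : cc Q (z * (Q ^ a)⁻¹) (z⁻¹ * Q ^ (a + 1)) (k + 1)
      = cc Q (z * (Q ^ a)⁻¹) (z⁻¹ * Q ^ (a + 1)) k *
        ((1 - (z * (Q ^ a)⁻¹) * Q ^ k) * (1 - (z⁻¹ * Q ^ (a + 1)) * Q ^ k)
          / (1 - Q ^ (k + 1)) ^ 2) := by
      rw [cc, prod_range_succ, ← cc]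
    rw [h3, prod_range_succ, prod_range_succ, ← ih]
    generalize (1 - Q ^ (k + 1)) ^ 2 = d at *
    generalize cc Q (z * (Q ^ a)⁻¹) (z⁻¹ * Q ^ (a + 1)) k = c at *
    generalize (∏ j ∈ range k, (1 - Q ^ (j + 1)) ^ 2) = e at *
    have h4 : Q ^ (k + 1 + a) = Q ^ k * Q * Q ^ a := by ring
    rw [h4, pow_succ Q a]
    field_simp
    ring

section general

variable {A L : Type*} [CommRing A] [Field L] [Algebra A L] [FaithfulSMul A L]
variable (Q : A) (N a h : ℕ)

/-- The scaled coefficient polynomials in `z`. -/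
noncomputable def gz (k : ℕ) : A[X] :=
  C ((∏ j ∈ Ico k N, (1 - Q ^ (j + 1)) ^ 2) * (Q ^ a) ^ (N - k)) * X ^ (N - k) *
    ∏ j ∈ range k, ((C (Q ^ a) - C (Q ^ j) * X) * (X - C (Q ^ (j + 1 + a))))

/-- The polynomial in `z` over `A[x]`. -/
noncomputable def PP : A[X][X] :=
  C (C (Q ^ (∑ i ∈ range (a + 1), i))) * X ^ h *
      ∑ k ∈ range (N + 1), (gz Q N a k).map C * C (X ^ k)
    - C (C ((-1) ^ a)) * X ^ a *
      ∑ k ∈ range (N + 1), (gz Q N a k).map C * C (C (Q ^ k) * ∏ j ∈ range k, (1 - C (Q ^ j) * X))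

lemma eval_PP (ζ : A) : eval (C ζ) (PP Q N a h) =
    C (Q ^ (∑ i ∈ range (a + 1), i) * ζ ^ h) *
      ∑ k ∈ range (N + 1), C (eval ζ (gz Q N a k)) * X ^ k
    - C ((-1) ^ a * ζ ^ a) *
      ∑ k ∈ range (N + 1), C (eval ζ (gz Q N a k)) *
        (C (Q ^ k) * ∏ j ∈ range k, (1 - C (Q ^ j) * X)) := by
  have h1 : ∀ k, eval (C ζ) ((gz Q N a k).map C) = C (eval ζ (gz Q N a k)) := by
    intro k
    rw [eval_map, eval₂_at_apply]
  rw [PP]
  simp only [eval_sub, eval_mul, eval_C, eval_pow, eval_X, eval_finsetSum, h1]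
  simp only [C_mul, C_pow]

lemma gz_eval (ζ : A) (hζ : ζ ≠ 0) (hQ : Q ≠ 0)
    (hQ1 : ∀ j : ℕ, (algebraMap A L Q) ^ (j + 1) ≠ 1) (k : ℕ) (hk : k ≤ N) :
    algebraMap A L (eval ζ (gz Q N a k)) =
      ((algebraMap A L Q) ^ a * algebraMap A L ζ) ^ N *
        (∏ j ∈ range N, (1 - (algebraMap A L Q) ^ (j + 1)) ^ 2) *
      cc (algebraMap A L Q) (algebraMap A L ζ * ((algebraMap A L Q) ^ a)⁻¹)
        ((algebraMap A L ζ)⁻¹ * (algebraMap A L Q) ^ (a + 1)) k := by
  have hinj := FaithfulSMul.algebraMap_injective A L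
  have hζ' : algebraMap A L ζ ≠ 0 := by
    rwa [Ne, map_eq_zero_iff _ hinj]
  have hQ' : algebraMap A L Q ≠ 0 := by
    rwa [Ne, map_eq_zero_iff _ hinj]
  rw [gz]
  simp only [eval_mul, eval_C, eval_pow, eval_X, eval_sub, map_mul, map_pow, map_prod, map_sub,
    map_one, eval_prod, eval_one]
  generalize algebraMap A L Q = Q' at *
  generalize algebraMap A L ζ = z at *
  obtain ⟨i, rfl⟩ := Nat.exists_eq_add_of_le hk
  have h2 := cc_mul Q' z hQ' hζ' hQ1 a k
  rw [prod_mul_distrib] at h2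
  rw [← prod_range_mul_prod_Ico _ hk, Nat.add_sub_cancel_left, prod_mul_distrib, ← h2]
  ring

/-- Evaluation of `PP` at `z = ζ`, in the field `L`. -/
lemma map_eval_PP (ζ : A) (hζ : ζ ≠ 0) (hQ : Q ≠ 0)
    (hQ1 : ∀ j : ℕ, (algebraMap A L Q) ^ (j + 1) ≠ 1) :
    (eval (C ζ) (PP Q N a h)).map (algebraMap A L) =
      C (((algebraMap A L Q) ^ a * algebraMap A L ζ) ^ N *
        (∏ j ∈ range N, (1 - (algebraMap A L Q) ^ (j + 1)) ^ 2)) *
      (C ((algebraMap A L Q) ^ (∑ i ∈ range (a + 1), i) * (algebraMap A L ζ) ^ h) *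
        ∑ k ∈ range (N + 1), C (cc (algebraMap A L Q) (algebraMap A L ζ * ((algebraMap A L Q) ^ a)⁻¹)
          ((algebraMap A L ζ)⁻¹ * (algebraMap A L Q) ^ (a + 1)) k) * X ^ k
      - C ((-1) ^ a * (algebraMap A L ζ) ^ a) *
        ∑ k ∈ range (N + 1), C (cc (algebraMap A L Q) (algebraMap A L ζ * ((algebraMap A L Q) ^ a)⁻¹)
          ((algebraMap A L ζ)⁻¹ * (algebraMap A L Q) ^ (a + 1)) k * (algebraMap A L Q) ^ k) *
            phi (algebraMap A L Q) k) := by
  set Q' := algebraMap A L Q with hQ'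
  set z := algebraMap A L ζ with hz
  set F : L := (Q' ^ a * z) ^ N * (∏ j ∈ range N, (1 - Q' ^ (j + 1)) ^ 2) with hF
  have h1 : ∀ k ∈ range (N + 1), algebraMap A L (eval ζ (gz Q N a k)) =
      F * cc Q' (z * (Q' ^ a)⁻¹) (z⁻¹ * Q' ^ (a + 1)) k :=
    fun k hk => gz_eval (L := L) Q N a ζ hζ hQ hQ1 k (by rw [mem_range] at hk; omega)
  have e1 : (∑ k ∈ range (N + 1), C (eval ζ (gz Q N a k)) * X ^ k).map (algebraMap A L)
      = C F * ∑ k ∈ range (N + 1), C (cc Q' (z * (Q' ^ a)⁻¹) (z⁻¹ * Q' ^ (a + 1)) k) * X ^ k := by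
    rw [Polynomial.map_sum, mul_sum]
    refine sum_congr rfl fun k hk => ?_
    rw [Polynomial.map_mul, map_C, Polynomial.map_pow, map_X, h1 k hk, C_mul, mul_assoc]
  have e2 : (∑ k ∈ range (N + 1), C (eval ζ (gz Q N a k)) *
        (C (Q ^ k) * ∏ j ∈ range k, (1 - C (Q ^ j) * X))).map (algebraMap A L)
      = C F * ∑ k ∈ range (N + 1),
        C (cc Q' (z * (Q' ^ a)⁻¹) (z⁻¹ * Q' ^ (a + 1)) k * Q' ^ k) * phi Q' k := by
    rw [Polynomial.map_sum, mul_sum]
    refine sum_congr rfl fun k hk => ?_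
    have e3 : (∏ j ∈ range k, (1 - C (Q ^ j) * X)).map (algebraMap A L) = phi Q' k := by
      rw [Polynomial.map_prod, phi]
      refine prod_congr rfl fun j _ => ?_
      simp [hQ']
    rw [Polynomial.map_mul, map_C, Polynomial.map_mul, map_C, e3, h1 k hk]
    simp only [C_mul, map_pow, ← hQ', mul_assoc]
  have e4 : algebraMap A L (Q ^ (∑ i ∈ range (a + 1), i) * ζ ^ h)
      = Q' ^ (∑ i ∈ range (a + 1), i) * z ^ h := by
    rw [map_mul, map_pow, map_pow]
  have e5 : algebraMap A L ((-1) ^ a * ζ ^ a) = (-1) ^ a * z ^ a := by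
    rw [map_mul, map_pow, map_pow, map_neg, map_one]
  rw [eval_PP, Polynomial.map_sub, Polynomial.map_mul, Polynomial.map_mul, e1, e2,
    Polynomial.map_C, Polynomial.map_C, e4, e5]
  ring

lemma sum_range_id_two (n : ℕ) : 2 * (∑ i ∈ range (n + 1), i) = n * (n + 1) := by
  have := Finset.sum_range_id_mul_two (n + 1)
  rw [Nat.add_sub_cancel] at this
  rw [mul_comm, this, mul_comm]

include L in
lemma PP_eval_one (hQ : Q ≠ 0) (hQ1 : ∀ j : ℕ, (algebraMap A L Q) ^ (j + 1) ≠ 1) (ha : a ≤ N) :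
    eval (C 1) (PP Q N a h) = 0 := by
  have hinj := FaithfulSMul.algebraMap_injective A L
  have hQ' : algebraMap A L Q ≠ 0 := by
    rwa [Ne, map_eq_zero_iff _ hinj]
  have h1 : (1 : A) ≠ 0 := by
    intro h1
    apply hQ
    rw [← mul_one Q, h1, mul_zero]
  apply Polynomial.map_injective _ hinj
  rw [map_eval_PP Q N a h 1 h1 hQ hQ1, Polynomial.map_zero, map_one]
  have h2 := legendre (algebraMap A L Q) hQ' hQ1 a (N + 1) (by omega)
  simp only [one_mul, inv_one, one_pow, mul_one]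
  rw [h2]
  have h3 : ((-1 : L) ^ a) * ((-1) ^ a * (algebraMap A L Q) ^ (∑ i ∈ range (a + 1), i))
      = (algebraMap A L Q) ^ (∑ i ∈ range (a + 1), i) := by
    rw [← mul_assoc, ← mul_pow]
    simp
  rw [← mul_assoc (C ((-1) ^ a)), ← C_mul, h3, sub_self, mul_zero]

include L in
lemma PP_eval_w (hQ : Q ≠ 0) (hQ1 : ∀ j : ℕ, (algebraMap A L Q) ^ (j + 1) ≠ 1) (ha : a ≤ N)
    (hN : N = 2 * h) :
    eval (C (Q ^ (N + 1))) (PP Q N a h) = 0 := by
  have hinj := FaithfulSMul.algebraMap_injective A L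
  have hQ' : algebraMap A L Q ≠ 0 := by
    rwa [Ne, map_eq_zero_iff _ hinj]
  have hw' : algebraMap A L (Q ^ (N + 1)) ≠ 0 := by
    rw [map_pow]
    exact pow_ne_zero _ hQ'
  have hw : Q ^ (N + 1) ≠ 0 := by
    intro h1
    rw [h1, map_zero] at hw'
    exact hw' rfl
  apply Polynomial.map_injective _ hinj
  rw [map_eval_PP Q N a h _ hw hQ hQ1, Polynomial.map_zero, map_pow]
  obtain ⟨b, rfl⟩ := Nat.exists_eq_add_of_le ha
  have h2 := legendre (algebraMap A L Q) hQ' hQ1 b (a + b + 1) (by omega)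
  have hab : (-1 : L) ^ a * (-1) ^ b = 1 := by
    rw [← pow_add, hN, pow_mul]
    simp
  have hexp : (∑ i ∈ range (a + 1), i) + (a + b + 1) * h
      = (a + b + 1) * a + (∑ i ∈ range (b + 1), i) := by
    have e1 := sum_range_id_two a
    have e2 := sum_range_id_two b
    have e3 : 2 * ((∑ i ∈ range (a + 1), i) + (a + b + 1) * h)
      = 2 * ((a + b + 1) * a + (∑ i ∈ range (b + 1), i)) := by
      rw [mul_add, mul_add, e1, e2]
      have : 2 * ((a + b + 1) * h) = (a + b + 1) * (a + b) := by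
        rw [hN]
        ring
      rw [this]
      ring
    omega
  have hu : (algebraMap A L Q) ^ (a + b + 1) * ((algebraMap A L Q) ^ a)⁻¹
      = (algebraMap A L Q) ^ (b + 1) := by
    field_simp
    ring
  have hv : ((algebraMap A L Q) ^ (a + b + 1))⁻¹ * (algebraMap A L Q) ^ (a + 1)
      = ((algebraMap A L Q) ^ b)⁻¹ := by
    field_simp
    ring
  rw [hu, hv]
  simp only [cc_comm (algebraMap A L Q) ((algebraMap A L Q) ^ (b + 1))]
  rw [h2]
  have h3 : ((-1 : L) ^ a) * ((algebraMap A L Q) ^ (a + b + 1)) ^ a *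
      ((-1) ^ b * (algebraMap A L Q) ^ (∑ i ∈ range (b + 1), i))
      = (algebraMap A L Q) ^ (∑ i ∈ range (a + 1), i) * ((algebraMap A L Q) ^ (a + b + 1)) ^ h := by
    rw [← pow_mul, ← pow_mul, ← pow_add, hexp, pow_add]
    linear_combination ((algebraMap A L Q) ^ ((a + b + 1) * a) *
      (algebraMap A L Q) ^ (∑ i ∈ range (b + 1), i)) * hab
  rw [← mul_assoc (C ((-1) ^ a * _)), ← C_mul, h3, sub_self, mul_zero]

end general

lemma dvd_eval {B : Type*} [CommRing B] [IsDomain B] (P : B[X]) (u w b : B) (huw : u ≠ w)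
    (hu : eval u P = 0) (hw : eval w P = 0) : (b - u) * (b - w) ∣ eval b P := by
  obtain ⟨G, hG⟩ := dvd_iff_isRoot.mpr hu
  have h1 : eval w G = 0 := by
    rw [hG, eval_mul] at hw
    simp only [eval_sub, eval_X, eval_C] at hw
    rcases mul_eq_zero.mp hw with h | h
    · exact absurd (sub_eq_zero.mp h).symm huw
    · exact h
  obtain ⟨G', hG'⟩ := dvd_iff_isRoot.mpr h1
  refine ⟨eval b G', ?_⟩
  rw [hG, hG']
  simp
  ring

/-! ### The prime `[p]` -/

lemma brk_eq (p : ℕ) (hp : p.Prime) : brk p = cyclotomic p ℤ := by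
  have := Fact.mk hp
  rw [cyclotomic_prime, brk]

lemma brk_prime (p : ℕ) (hp : p.Prime) : Prime (brk p) := by
  rw [brk_eq p hp]
  exact (cyclotomic.irreducible hp.pos).prime

lemma brk_dvd_pow_sub_one (p s : ℕ) : brk p ∣ (X : ℤ[X]) ^ (p * s) - 1 := by
  have h1 : brk p ∣ (X : ℤ[X]) ^ p - 1 := by
    rw [brk, ← geom_sum_mul]
    exact dvd_mul_right _ _
  refine h1.trans ?_
  rw [pow_mul]
  simpa using sub_dvd_pow_sub_pow ((X : ℤ[X]) ^ p) 1 s

lemma brk_dvd_iff (p : ℕ) (hp : p.Prime) (n : ℕ) (h : brk p ∣ (X : ℤ[X]) ^ n - 1) : p ∣ n := by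
  obtain ⟨ζ, hζ⟩ : ∃ ζ : ℂ, IsPrimitiveRoot ζ p :=
    ⟨_, Complex.isPrimitiveRoot_exp p hp.ne_zero⟩
  have h0 : aeval ζ (brk p) = 0 := by
    rw [brk_eq p hp]
    have := hζ.isRoot_cyclotomic hp.pos
    rw [IsRoot.def, ← map_cyclotomic_int, eval_map] at this
    rw [aeval_def]
    exact this
  obtain ⟨g, hg⟩ := h
  have h1 : aeval ζ ((X : ℤ[X]) ^ n - 1) = 0 := by
    rw [hg, map_mul, h0, zero_mul]
  simp only [map_sub, map_pow, aeval_X, map_one] at h1
  exact hζ.dvd_of_pow_eq_one n (sub_eq_zero.mp h1)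

lemma brk_not_dvd_X (p : ℕ) (hp : p.Prime) : ¬ brk p ∣ (X : ℤ[X]) := by
  intro h
  have h1 : brk p ∣ (X : ℤ[X]) ^ p - 1 := by
    have := brk_dvd_pow_sub_one p 1
    rwa [mul_one] at this
  have h2 : brk p ∣ (X : ℤ[X]) ^ p := h.trans (dvd_pow_self _ hp.ne_zero)
  have h3 : brk p ∣ 1 := by
    have := dvd_sub h2 h1
    simpa using this
  exact (brk_prime p hp).not_isUnit (isUnit_of_dvd_one h3)

/-- The elements of `K` that are divisible by `[p]^2`. -/
def Small (p : ℕ) (x : K) : Prop :=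
  ∃ U N : ℤ[X], ¬ brk p ∣ U ∧ algebraMap ℤ[X] K U * x = algebraMap ℤ[X] K (brk p ^ 2 * N)

lemma small_iff (p : ℕ) (hp : p.Prime) (x : K) :
    Small p x ↔ brk p ^ 2 ∣ IsFractionRing.num ℤ[X] x := by
  have hinj := IsFractionRing.injective ℤ[X] K
  have hden : algebraMap ℤ[X] K (IsFractionRing.den ℤ[X] x : ℤ[X]) ≠ 0 := by
    intro h
    have := hinj (h.trans (map_zero _).symm)
    exact nonZeroDivisors.ne_zero (IsFractionRing.den ℤ[X] x).2 this
  have hx : algebraMap ℤ[X] K (IsFractionRing.den ℤ[X] x : ℤ[X]) * x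
      = algebraMap ℤ[X] K (IsFractionRing.num ℤ[X] x) := by
    have h := IsFractionRing.mk'_num_den' ℤ[X] x
    rw [div_eq_iff hden] at h
    rw [h, mul_comm]
  constructor
  · rintro ⟨U, N, hU, h⟩
    have h1 : U * IsFractionRing.num ℤ[X] x
        = brk p ^ 2 * (N * (IsFractionRing.den ℤ[X] x : ℤ[X])) := by
      apply hinj
      rw [map_mul, ← hx, mul_left_comm, h, ← mul_assoc, map_mul, map_mul]
      simp only [map_mul]
      ring
    exact (brk_prime p hp).pow_dvd_of_dvd_mul_left 2 hU (Dvd.intro _ h1.symm)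
  · rintro ⟨N, hN⟩
    refine ⟨IsFractionRing.den ℤ[X] x, N, ?_, ?_⟩
    · intro h
      have h1 : brk p ∣ IsFractionRing.num ℤ[X] x := by
        rw [hN, pow_two, mul_assoc]
        exact dvd_mul_right _ _
      exact (brk_prime p hp).not_isUnit (IsFractionRing.num_den_reduced ℤ[X] x h1 h)
    · rw [hx, hN]

lemma Small.add {p : ℕ} (hp : p.Prime) {x y : K} (hx : Small p x) (hy : Small p y) :
    Small p (x + y) := by
  obtain ⟨U, N, hU, h⟩ := hx
  obtain ⟨V, M, hV, h'⟩ := hy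
  refine ⟨U * V, V * N + U * M, ?_, ?_⟩
  · intro hd
    rcases (brk_prime p hp).dvd_or_dvd hd with h1 | h1
    · exact hU h1
    · exact hV h1
  · simp only [map_mul, map_add, map_pow] at h h' ⊢
    linear_combination (algebraMap ℤ[X] K V) * h + (algebraMap ℤ[X] K U) * h'

lemma Small.zero {p : ℕ} (hp : p.Prime) : Small p 0 :=
  ⟨1, 0, fun h => (brk_prime p hp).not_isUnit (isUnit_of_dvd_one h), by simp⟩

lemma Small.neg {p : ℕ} {x : K} (hx : Small p x) : Small p (-x) := by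
  obtain ⟨U, N, hU, h⟩ := hx
  refine ⟨U, -N, hU, ?_⟩
  rw [mul_neg, h, mul_neg, map_neg]

lemma Small.sum {p : ℕ} (hp : p.Prime) {ι : Type*} (s : Finset ι) (f : ι → K)
    (hf : ∀ i ∈ s, Small p (f i)) : Small p (∑ i ∈ s, f i) := by
  classical
  induction s using Finset.induction_on with
  | empty => simpa using Small.zero hp
  | insert a s ha ih =>
    rw [sum_insert ha]
    exact (hf a (mem_insert_self _ _)).add hp (ih fun i hi => hf i (mem_insert_of_mem hi))

/-! ### The residue -/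

lemma residue_spec (p m r : ℕ) (hp : p.Prime) (hm : ¬ p ∣ m) :
    residue p (-(r : ℚ) / m) < p ∧ p ∣ r + residue p (-(r : ℚ) / m) * m := by
  have := Fact.mk hp
  have hm0 : (m : ℚ) ≠ 0 := by
    intro h
    apply hm
    have : m = 0 := by exact_mod_cast h
    rw [this]
    exact dvd_zero p
  set x : ℚ := -(r : ℚ) / m with hx
  have h1 : (x.num : ℤ) * m = -(r : ℤ) * x.den := by
    have h2 : x * m = -r := by
      rw [hx]
      field_simp
    have h3 : (x.num : ℚ) = x * x.den := by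
      exact (Rat.mul_den_eq_num x).symm
    have h4 : ((x.num * m : ℤ) : ℚ) = ((-(r : ℤ) * x.den : ℤ) : ℚ) := by
      push_cast
      rw [h3]
      linear_combination (x.den : ℚ) * h2
    exact_mod_cast h4
  have hden : (x.den : ZMod p) ≠ 0 := by
    intro h
    rw [ZMod.natCast_eq_zero_iff] at h
    have h2 : (p : ℤ) ∣ x.num * m := by
      rw [h1]
      exact Dvd.dvd.mul_left (Int.natCast_dvd_natCast.mpr h) _
    rcases (Nat.prime_iff_prime_int.mp hp).dvd_or_dvd h2 with h3 | h3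
    · have h4 : p ∣ x.num.natAbs := Int.natCast_dvd.mp h3
      have h5 := Nat.dvd_gcd h4 h
      rw [x.reduced] at h5
      exact hp.one_lt.ne' (Nat.dvd_one.mp h5)
    · exact hm (Int.natCast_dvd_natCast.mp h3)
  refine ⟨ZMod.val_lt _, ?_⟩
  rw [← ZMod.natCast_eq_zero_iff]
  push_cast
  rw [residue, ZMod.natCast_val, ZMod.cast_id', id]
  have h6 : (x.num : ZMod p) * m = -(r : ZMod p) * x.den := by
    have := congrArg (Int.cast : ℤ → ZMod p) h1
    push_cast at this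
    exact this
  field_simp
  linear_combination h6

lemma residue_unique (p m r a : ℕ) (hp : p.Prime) (hm : ¬ p ∣ m) (ha : a < p)
    (h : p ∣ r + a * m) : residue p (-(r : ℚ) / m) = a := by
  obtain ⟨h1, h2⟩ := residue_spec p m r hp hm
  generalize residue p (-(r : ℚ) / m) = b at *
  have h3 : (p : ℤ) ∣ ((b : ℤ) - a) * m := by
    have e1 : (p : ℤ) ∣ r + b * m := by exact_mod_cast h2
    have e2 : (p : ℤ) ∣ r + a * m := by exact_mod_cast h
    have := dvd_sub e1 e2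
    rw [show ((r : ℤ) + b * m - (r + a * m)) = ((b : ℤ) - a) * m by ring] at this
    exact this
  rcases (Nat.prime_iff_prime_int.mp hp).dvd_or_dvd h3 with h4 | h4
  · have h5 : ((b : ℤ) - a) = 0 := by
      apply Int.eq_zero_of_abs_lt_dvd h4
      rw [abs_lt]
      constructor <;> omega
    omega
  · exact absurd (Int.natCast_dvd_natCast.mp h4) hm

/-! ### The main congruence -/

lemma q_ne_zero : q ≠ 0 := by
  rw [q, Ne, map_eq_zero_iff _ (IsFractionRing.injective ℤ[X] K)]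
  exact X_ne_zero

lemma X_pow_ne_one {n : ℕ} (hn : n ≠ 0) : (X : ℤ[X]) ^ n ≠ 1 := by
  intro h
  have := congrArg natDegree h
  rw [natDegree_X_pow, natDegree_one] at this
  exact hn this

lemma q_pow_ne_one {n : ℕ} (hn : n ≠ 0) : q ^ n ≠ 1 := by
  intro h
  apply X_pow_ne_one hn
  apply IsFractionRing.injective ℤ[X] K
  rw [map_pow, map_one]
  exact h

lemma coef_eq (m r k : ℕ) : coef m r k = cc (q ^ m) (q ^ (r : ℤ)) (q ^ ((m : ℤ) - r)) k := by
  rw [coef, cc]
  refine prod_congr rfl fun j _ => ?_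
  rw [zpow_add₀ q_ne_zero, zpow_add₀ q_ne_zero, ← pow_mul, ← pow_mul, mul_comm m (j + 1)]
  have : q ^ ((j : ℤ) * m) = q ^ (m * j) := by
    rw [← zpow_natCast]
    push_cast
    ring_nf
  rw [this]

lemma S_eq (p m r : ℕ) : S p m r =
    ∑ k ∈ range p, C (cc (q ^ m) (q ^ (r : ℤ)) (q ^ ((m : ℤ) - r)) k) * X ^ k := by
  rw [S]
  refine sum_congr rfl fun k _ => ?_
  rw [coef_eq]

lemma T_eq (p m r : ℕ) : T p m r =
    ∑ k ∈ range p, C (cc (q ^ m) (q ^ (r : ℤ)) (q ^ ((m : ℤ) - r)) k * (q ^ m) ^ k) *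
      phi (q ^ m) k := by
  rw [T]
  refine sum_congr rfl fun k _ => ?_
  rw [coef_eq, phi, pow_mul]
  congr 1
  refine prod_congr rfl fun j _ => ?_
  rw [mul_comm X, mul_comm j m, pow_mul]

lemma brk_not_dvd_X_pow (p : ℕ) (hp : p.Prime) (n : ℕ) : ¬ brk p ∣ (X : ℤ[X]) ^ n := by
  intro h
  exact brk_not_dvd_X p hp ((brk_prime p hp).dvd_of_dvd_pow h)

lemma map_U {A L : Type*} [CommRing A] [CommRing L] (f : A →+* L) (Q ζ : A) (a N t h : ℕ) :
    f ((Q ^ a * ζ) ^ N * (∏ j ∈ range N, (1 - Q ^ (j + 1)) ^ 2) * (Q ^ t * ζ ^ h))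
      = ((f Q) ^ a * f ζ) ^ N * (∏ j ∈ range N, (1 - (f Q) ^ (j + 1)) ^ 2) *
        ((f Q) ^ t * (f ζ) ^ h) := by
  simp only [map_mul, map_pow, map_prod, map_sub, map_one]

/-- The exponent in terms of `a`, `h = (p-1)/2` and `s = (r + a m)/p`. -/
theorem main_small (p m r a h s : ℕ) (hp : p.Prime) (hm : ¬ p ∣ m) (hph : p = 2 * h + 1)
    (ha : a < p) (hs : r + a * m = p * s) (n : ℕ) :
    Small p ((S p m r - C ((-1) ^ a * q ^ ((p * s : ℤ) * ((a : ℤ) - h)
      - m * (∑ i ∈ range (a + 1), i : ℕ))) * T p m r).coeff n) := by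
  have hm0 : m ≠ 0 := by
    rintro rfl
    exact hm (dvd_zero p)
  set Q : ℤ[X] := X ^ m with hQdef
  set ζ : ℤ[X] := X ^ (p * s) with hζdef
  set tri : ℕ := ∑ i ∈ range (a + 1), i with htri
  have hQ : Q ≠ 0 := pow_ne_zero _ X_ne_zero
  have hζ : ζ ≠ 0 := pow_ne_zero _ X_ne_zero
  have hιQ : algebraMap ℤ[X] K Q = q ^ m := by rw [hQdef, map_pow, q]
  have hιζ : algebraMap ℤ[X] K ζ = q ^ (p * s) := by rw [hζdef, map_pow, q]
  have hQ1 : ∀ j : ℕ, (algebraMap ℤ[X] K Q) ^ (j + 1) ≠ 1 := by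
    intro j
    rw [hιQ, ← pow_mul]
    exact q_pow_ne_one (Nat.mul_ne_zero hm0 (Nat.succ_ne_zero j))
  have haN : a ≤ 2 * h := by omega
  -- divisibility
  have h1 := PP_eval_one (L := K) Q (2 * h) a h hQ hQ1 haN
  have h2 := PP_eval_w (L := K) Q (2 * h) a h hQ hQ1 haN rfl
  have hne : (C 1 : ℤ[X][X]) ≠ C (Q ^ (2 * h + 1)) := by
    intro h3
    have h4 := C_injective h3
    rw [hQdef, ← pow_mul] at h4
    exact X_pow_ne_one (Nat.mul_ne_zero hm0 (by omega)) h4.symm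
  have h3 := dvd_eval (PP Q (2 * h) a h) (C 1) (C (Q ^ (2 * h + 1))) (C ζ) hne h1 h2
  have hb1 : brk p ∣ ζ - 1 := brk_dvd_pow_sub_one p s
  have hb2 : brk p ∣ ζ - Q ^ (2 * h + 1) := by
    have e1 : brk p ∣ Q ^ (2 * h + 1) - 1 := by
      rw [hQdef, ← pow_mul, ← hph, mul_comm m p]
      exact brk_dvd_pow_sub_one p m
    have e2 := dvd_sub hb1 e1
    rw [show ζ - 1 - (Q ^ (2 * h + 1) - 1) = ζ - Q ^ (2 * h + 1) by ring] at e2
    exact e2
  have h4 : C (brk p ^ 2) ∣ eval (C ζ) (PP Q (2 * h) a h) := by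
    refine dvd_trans ?_ h3
    rw [← C_sub, ← C_sub, ← C_mul, pow_two]
    exact map_dvd C (mul_dvd_mul hb1 hb2)
  obtain ⟨M, hM⟩ := (C_dvd_iff_dvd_coeff _ _).mp h4 n
  -- the value in `K[x]`
  have h5 := map_eval_PP (L := K) Q (2 * h) a h ζ hζ hQ hQ1
  rw [hιQ, hιζ] at h5
  have hq := q_ne_zero
  have hu : q ^ (p * s) * ((q ^ m) ^ a)⁻¹ = q ^ (r : ℤ) := by
    rw [← hs, ← pow_mul, pow_add, mul_comm a m, zpow_natCast]
    field_simp
  have hv : (q ^ (p * s))⁻¹ * (q ^ m) ^ (a + 1) = q ^ ((m : ℤ) - r) := by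
    rw [zpow_sub₀ hq, zpow_natCast, zpow_natCast, ← hs, ← pow_mul, pow_add, mul_comm a m, mul_add,
      mul_one, pow_add]
    field_simp
  rw [hu, hv, ← hph, ← S_eq, ← T_eq] at h5
  -- the exponent
  have hexp : C ((q ^ m) ^ tri * (q ^ (p * s)) ^ h) *
      (C ((-1) ^ a * q ^ ((p * s : ℤ) * ((a : ℤ) - h) - m * (tri : ℕ))) * T p m r)
      = C ((-1) ^ a * (q ^ (p * s)) ^ a) * T p m r := by
    rw [← mul_assoc, ← C_mul]
    congr 2
    rw [zpow_sub₀ hq, mul_sub, zpow_sub₀ hq]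
    have e1 : q ^ ((p * s : ℤ) * (a : ℤ)) = (q ^ (p * s)) ^ a := by
      rw [← pow_mul, ← zpow_natCast]
      push_cast
      rfl
    have e2 : q ^ ((p * s : ℤ) * (h : ℤ)) = (q ^ (p * s)) ^ h := by
      rw [← pow_mul, ← zpow_natCast]
      push_cast
      rfl
    have e3 : q ^ ((m : ℤ) * (tri : ℕ)) = (q ^ m) ^ tri := by
      rw [← pow_mul, ← zpow_natCast]
      push_cast
      rfl
    rw [e1, e2, e3]
    field_simp
  rw [← hexp, ← mul_sub, ← mul_assoc, ← C_mul] at h5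
  have h6 := congrArg (fun f : K[X] => f.coeff n) h5
  simp only [coeff_map, coeff_C_mul] at h6
  refine ⟨(Q ^ a * ζ) ^ (2 * h) * (∏ j ∈ range (2 * h), (1 - Q ^ (j + 1)) ^ 2) *
    (Q ^ tri * ζ ^ h), M, ?_, ?_⟩
  · intro hd
    rcases (brk_prime p hp).dvd_or_dvd hd with hd | hd
    · rcases (brk_prime p hp).dvd_or_dvd hd with hd | hd
      · have := (brk_prime p hp).dvd_of_dvd_pow hd
        rw [hQdef, hζdef, ← pow_mul, ← pow_add] at this
        exact brk_not_dvd_X_pow p hp _ this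
      · rw [(brk_prime p hp).dvd_finsetProd_iff] at hd
        obtain ⟨j, hj, hd⟩ := hd
        have h7 := (brk_prime p hp).dvd_of_dvd_pow hd
        rw [← dvd_neg, neg_sub, hQdef, ← pow_mul] at h7
        have h8 := brk_dvd_iff p hp _ h7
        rcases hp.dvd_mul.mp h8 with h9 | h9
        · exact hm h9
        · have := Nat.le_of_dvd (Nat.succ_pos j) h9
          rw [mem_range] at hj
          omega
    · rw [hQdef, hζdef, ← pow_mul, ← pow_mul, ← pow_add] at hd
      exact brk_not_dvd_X_pow p hp _ hd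
  · rw [← hM, h6, map_U, hιQ, hιζ]

theorem works_expo (p m r : ℕ) (hA : Admissible p m r) : Works p m r (expo p m r) := by
  obtain ⟨hp, hodd, hm1, hr1, hmr, hpm⟩ := hA
  obtain ⟨h, hph⟩ := hodd
  obtain ⟨ha, s, hs⟩ := residue_spec p m r hp hpm
  intro n
  rw [← small_iff p hp]
  have h1 := main_small p m r (residue p (-(r : ℚ) / m)) h s hp hpm hph ha hs n
  have h2 : expo p m r = (p * s : ℤ) * ((residue p (-(r : ℚ) / m) : ℤ) - h)
      - m * (∑ i ∈ range (residue p (-(r : ℚ) / m) + 1), i : ℕ) := by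
    rw [expo]
    generalize residue p (-(r : ℚ) / m) = a at *
    have e1 : ((p : ℤ) - 1) / 2 = h := by omega
    have e2 : ((a : ℤ) * (a + 1)) / 2 = (∑ i ∈ range (a + 1), i : ℕ) := by
      have := sum_range_id_two a
      have e3 : (a : ℤ) * (a + 1) = 2 * (∑ i ∈ range (a + 1), i : ℕ) := by
        exact_mod_cast this.symm
      rw [e3]
      omega
    have e4 : (r : ℤ) + a * m = p * s := by exact_mod_cast hs
    rw [e1, e2, e4]
  rw [h2]
  exact h1

lemma eval_one_T (p m r : ℕ) (hp : 0 < p) : eval 1 (T p m r) = 1 := by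
  rw [T, eval_finsetSum, Finset.sum_eq_single 0]
  · simp [coef]
  · intro k _ hk
    rw [eval_mul, eval_prod]
    rw [Finset.prod_eq_zero (mem_range.mpr (Nat.pos_of_ne_zero hk)), mul_zero]
    simp
  · intro h
    exact absurd (mem_range.mpr hp) h

lemma small_eval_one {p : ℕ} (hp : p.Prime) (f : K[X]) (hf : ∀ n, Small p (f.coeff n)) :
    Small p (eval 1 f) := by
  rw [eval_eq_sum_range]
  refine Small.sum hp _ _ fun i _ => ?_
  rw [one_pow, mul_one]
  exact hf i

lemma brk_sq_not_dvd (p : ℕ) (hp : p.Prime) (d : ℕ) (hd : d ≠ 0) :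
    ¬ brk p ^ 2 ∣ (X : ℤ[X]) ^ d - 1 := by
  rintro ⟨W, hW⟩
  have h1 := congrArg derivative hW
  simp only [derivative_sub, derivative_one, derivative_mul, derivative_pow,
    sub_zero, derivative_X, mul_one] at h1
  have h2 : brk p ∣ C (d : ℤ) * X ^ (d - 1) := by
    rw [h1, pow_two]
    refine dvd_add ?_ ?_
    · refine Dvd.dvd.mul_right ?_ _
      refine Dvd.dvd.mul_right ?_ _
      refine Dvd.dvd.mul_left ?_ _
      simp
    · rw [mul_assoc]
      exact dvd_mul_right _ _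
  rcases (brk_prime p hp).dvd_or_dvd h2 with h3 | h3
  · have h4 : (C (d : ℤ) : ℤ[X]) ≠ 0 := by
      rw [Ne, C_eq_zero]
      exact_mod_cast hd
    have h5 := natDegree_le_of_dvd h3 h4
    rw [natDegree_C, brk_eq p hp, natDegree_cyclotomic, Nat.totient_prime hp] at h5
    have := hp.two_le
    omega
  · exact brk_not_dvd_X_pow p hp _ h3

lemma not_small_pow (p : ℕ) (hp : p.Prime) (f : ℤ) (d : ℕ) (hd : d ≠ 0) :
    ¬ Small p (q ^ f * (q ^ d - 1)) := by
  rintro ⟨U, N, hU, h⟩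
  have hq := q_ne_zero
  obtain ⟨a, b, hab⟩ : ∃ a b : ℕ, q ^ f * q ^ b = q ^ a := by
    refine ⟨f.toNat, (-f).toNat, ?_⟩
    rw [← zpow_natCast, ← zpow_natCast, ← zpow_add₀ hq]
    congr 1
    omega
  have h1 : U * X ^ a * (X ^ d - 1) = brk p ^ 2 * (N * X ^ b) := by
    apply IsFractionRing.injective ℤ[X] K
    rw [map_mul, map_mul, map_sub, map_pow, map_pow, map_one, ← mul_assoc, map_mul _ _ (X ^ b),
      map_pow _ X b, ← h]
    change algebraMap ℤ[X] K U * q ^ a * (q ^ d - 1) = _ * q ^ b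
    rw [← hab]
    ring
  refine brk_sq_not_dvd p hp d hd ((brk_prime p hp).pow_dvd_of_dvd_mul_left 2 ?_
    (Dvd.intro _ h1.symm))
  intro h2
  rcases (brk_prime p hp).dvd_or_dvd h2 with h3 | h3
  · exact hU h3
  · exact brk_not_dvd_X_pow p hp _ h3

theorem works_unique (p m r : ℕ) (hA : Admissible p m r) (f f' : ℤ) (hf : Works p m r f)
    (hf' : Works p m r f') : f = f' := by
  have hp := hA.prime
  set c : K := (-1) ^ residue p (-(r : ℚ) / m) with hc
  have hcc : c * c = 1 := by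
    rw [hc, ← mul_pow]
    simp
  have key : ∀ g : ℤ, Works p m r g → Small p (eval 1 (S p m r) - c * q ^ g) := by
    intro g hg
    have h1 := small_eval_one hp (S p m r - C (c * q ^ g) * T p m r) (fun n => by
      rw [small_iff p hp]
      exact hg n)
    rw [eval_sub, eval_mul, eval_C, eval_one_T p m r hp.pos, mul_one] at h1
    exact h1
  have h2 : ∀ g g' : ℤ, Works p m r g → Works p m r g' → ¬ g < g' := by
    intro g g' hg hg' hlt
    obtain ⟨d, hd⟩ := Int.eq_ofNat_of_zero_le (sub_nonneg.mpr hlt.le)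
    have hd0 : d ≠ 0 := by omega
    have h3 := (key g hg).add hp (key g' hg').neg
    have h4 : eval 1 (S p m r) - c * q ^ g + -(eval 1 (S p m r) - c * q ^ g')
        = c * (q ^ g * (q ^ d - 1)) := by
      have h5 : q ^ g' = q ^ g * q ^ d := by
        rw [← zpow_natCast, ← zpow_add₀ q_ne_zero]
        congr 1
        omega
      rw [h5]
      ring
    rw [h4] at h3
    apply not_small_pow p hp g d hd0
    obtain ⟨U, N, hU, h6⟩ := h3
    have h7 : c = 1 ∨ c = -1 := by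
      rw [hc]
      exact neg_one_pow_eq_or K _
    rcases h7 with h7 | h7
    · rw [h7, one_mul] at h6
      exact ⟨U, N, hU, h6⟩
    · refine ⟨U, -N, hU, ?_⟩
      rw [h7, neg_one_mul, mul_neg] at h6
      rw [mul_neg, map_neg, ← h6, neg_neg]
  rcases lt_trichotomy f f' with h | h | h
  · exact absurd h (h2 f f' hf hf')
  · exact h
  · exact absurd h (h2 f' f hf' hf)

theorem works_iff (p m r : ℕ) (hA : Admissible p m r) (f : ℤ) :
    Works p m r f ↔ f = expo p m r := by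
  constructor
  · intro hf
    exact works_unique p m r hA f _ hf (works_expo p m r hA)
  · rintro rfl
    exact works_expo p m r hA

lemma Admissible.add {p m r : ℕ} (hA : Admissible p m r) : Admissible p m (r + m) where
  prime := hA.prime
  odd := hA.odd
  one_le_m := hA.one_le_m
  one_le_r := le_trans hA.one_le_r (Nat.le_add_right _ _)
  m_not_dvd_r := by
    intro h
    exact hA.m_not_dvd_r ((Nat.dvd_add_left (dvd_refl m)).mp h)
  p_not_dvd_m := hA.p_not_dvd_m

theorem expo_add (p m r : ℕ) (hA : Admissible p m r) :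
    (p ∣ r → expo p m (r + m) = - expo p m r) ∧ (¬ p ∣ r → expo p m (r + m) = expo p m r - r) := by
  have hp := hA.prime
  have hm := hA.p_not_dvd_m
  obtain ⟨h, hph⟩ := hA.odd
  obtain ⟨ha, hs⟩ := residue_spec p m r hp hm
  have e1 : ((p : ℤ) - 1) / 2 = h := by omega
  constructor
  · intro hpr
    have h0 : residue p (-(r : ℚ) / m) = 0 := by
      apply residue_unique p m r 0 hp hm hp.pos
      simpa using hpr
    have h1 : residue p (-((r + m : ℕ) : ℚ) / m) = p - 1 := by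
      apply residue_unique p m (r + m) (p - 1) hp hm (Nat.sub_lt hp.pos one_pos)
      have : r + m + (p - 1) * m = r + p * m := by
        have hp1 : p = (p - 1) + 1 := by have := hp.pos; omega
        nth_rewrite 2 [hp1]
        ring
      rw [this]
      exact (Nat.dvd_add_right hpr).mpr (dvd_mul_right _ _)
    rw [expo, expo, h0, h1, e1]
    have e2 : ((p - 1 : ℕ) : ℤ) = 2 * h := by omega
    rw [e2]
    have e3 : (2 * (h : ℤ)) * (2 * h + 1) / 2 = h * (2 * h + 1) := by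
      rw [mul_assoc]
      exact Int.mul_ediv_cancel_left _ (by norm_num)
    rw [e3]
    push_cast
    ring
  · intro hpr
    have h0 : residue p (-(r : ℚ) / m) ≠ 0 := by
      intro h0
      rw [h0] at hs
      apply hpr
      simpa using hs
    generalize hb : residue p (-(r : ℚ) / m) = a at *
    obtain ⟨b, rfl⟩ := Nat.exists_eq_succ_of_ne_zero h0
    have h1 : residue p (-((r + m : ℕ) : ℚ) / m) = b := by
      apply residue_unique p m (r + m) b hp hm (by omega)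
      have : r + m + b * m = r + b.succ * m := by
        rw [Nat.succ_eq_add_one]
        ring
      rw [this]
      exact hs
    rw [expo, expo, hb, h1, e1]
    have e2 : (((b : ℕ).succ : ℤ) * ((b.succ : ℤ) + 1)) / 2 = (b : ℤ) * (b + 1) / 2 + (b + 1) := by
      have : ((b.succ : ℤ) * ((b.succ : ℤ) + 1)) = (b : ℤ) * (b + 1) + (b + 1) * 2 := by
        push_cast
        ring
      rw [this, Int.add_mul_ediv_right _ _ (by norm_num)]
    rw [e2]
    push_cast
    ring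

end Pool.Agent.QCong
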